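import Pool.Agent.LRG.StmtsH

/-!
# LRG row LFT (algebraic elements are copied into one algebraically closed field)
-/

set_option autoImplicit false

open Polynomial

namespace Pool.Agent.LRG.H10

theorem lft_aux (L K Om : Type) [Field L] [Field K] [Field Om] [Algebra L Om] [IsAlgClosed Om]
    (ψ : L →+* K) (k : ℕ) (ζ : Fin k → K) (h : ∀ j, ∃ P : L[X], P ≠ 0 ∧ P.eval₂ ψ (ζ j) = 0) :
    ∃ z : Fin k → Om, (∀ j (P : L[X]), P.eval₂ ψ (ζ j) = 0 → P.eval₂ (algebraMap L Om) (z j) = 0) ∧
      ∀ q : MvPolynomial (Fin k) L,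
        MvPolynomial.eval₂ ψ ζ q = 0 ↔ MvPolynomial.eval₂ (algebraMap L Om) z q = 0 := by
  let _ : Algebra L K := ψ.toAlgebra
  have hψ : algebraMap L K = ψ := rfl
  have hint : ∀ x ∈ Set.range ζ, IsIntegral L x := by
    rintro _ ⟨j, rfl⟩
    obtain ⟨P, hP, hP2⟩ := h j
    have : IsAlgebraic L (ζ j) := ⟨P, hP, by rw [Polynomial.aeval_def, hψ]; exact hP2⟩
    exact this.isIntegral
  have : Algebra.IsAlgebraic L (IntermediateField.adjoin L (Set.range ζ)) :=
    IntermediateField.isAlgebraic_adjoin hint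
  let σ : IntermediateField.adjoin L (Set.range ζ) →ₐ[L] Om := IsAlgClosed.lift
  let s : Fin k → IntermediateField.adjoin L (Set.range ζ) :=
    fun j => ⟨ζ j, IntermediateField.subset_adjoin L _ ⟨j, rfl⟩⟩
  let ι : IntermediateField.adjoin L (Set.range ζ) →+* K :=
    (IntermediateField.val (IntermediateField.adjoin L (Set.range ζ))).toRingHom
  have hσ : (σ : IntermediateField.adjoin L (Set.range ζ) →+* Om).comp
      (algebraMap L (IntermediateField.adjoin L (Set.range ζ))) = algebraMap L Om := by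
    ext x
    exact σ.commutes x
  have hι : ι.comp (algebraMap L (IntermediateField.adjoin L (Set.range ζ))) = ψ := by
    ext x; rfl
  have hsζ : ∀ j, ι (s j) = ζ j := fun j => rfl
  refine ⟨fun j => σ (s j), ?_, ?_⟩
  · intro j P hP
    have e1 : P.eval₂ ψ (ζ j) = ι (P.eval₂ (algebraMap L _) (s j)) := by
      rw [Polynomial.hom_eval₂, hι, hsζ]
    have e2 : P.eval₂ (algebraMap L Om) (σ (s j)) =
        (σ : IntermediateField.adjoin L (Set.range ζ) →+* Om)
          (P.eval₂ (algebraMap L _) (s j)) := by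
      rw [Polynomial.hom_eval₂, hσ]; rfl
    rw [e1] at hP
    have := (map_eq_zero ι).mp hP
    rw [e2, this, map_zero]
  · intro q
    have e1 : MvPolynomial.eval₂ ψ ζ q = ι (MvPolynomial.eval₂ (algebraMap L _) s q) := by
      rw [MvPolynomial.hom_eval₂, hι]
      rfl
    have e2 : MvPolynomial.eval₂ (algebraMap L Om) (fun j => σ (s j)) q =
        (σ : IntermediateField.adjoin L (Set.range ζ) →+* Om)
          (MvPolynomial.eval₂ (algebraMap L _) s q) := by
      rw [MvPolynomial.hom_eval₂, hσ]; rfl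
    rw [e1, e2, map_eq_zero, map_eq_zero]

theorem lft_gen (R A L K Om : Type) [CommRing R] [IsDomain R] [CommRing A] [IsDomain A]
    [Field L] [Field K] [Field Om] [Algebra R L] [IsFractionRing R L] [Algebra A K]
    [IsFractionRing A K] [Algebra L Om] [Algebra R Om] [IsScalarTower R L Om] [IsAlgClosed Om]
    (φ : R →+* A) (k : ℕ) (G : Fin k → R[X]) (ζ : Fin k → A) (hφ : Function.Injective φ)
    (hG : ∀ j, G j ≠ 0) (hζ : ∀ j, (G j).eval₂ φ (ζ j) = 0) :
    ∃ z : Fin k → Om, (∀ j, (G j).eval₂ (algebraMap R Om) (z j) = 0) ∧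
      ∀ q : MvPolynomial (Fin k) R, MvPolynomial.eval₂ φ ζ q = 0 ↔ MvPolynomial.aeval z q = 0 := by
  have hinj : Function.Injective ((algebraMap A K).comp φ) :=
    (IsFractionRing.injective A K).comp hφ
  obtain ⟨ψ, hψ⟩ : ∃ ψ : L →+* K, ψ.comp (algebraMap R L) = (algebraMap A K).comp φ :=
    ⟨IsFractionRing.lift hinj, RingHom.ext fun x => IsFractionRing.lift_algebraMap hinj x⟩
  have hΩ : (algebraMap L Om).comp (algebraMap R L) = algebraMap R Om :=
    (IsScalarTower.algebraMap_eq R L Om).symm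
  have h1 : ∀ j, ((G j).map (algebraMap R L)).eval₂ ψ (algebraMap A K (ζ j)) = 0 := by
    intro j
    rw [Polynomial.eval₂_map, hψ, ← Polynomial.hom_eval₂, hζ j, map_zero]
  obtain ⟨z, hz1, hz2⟩ := lft_aux L K Om ψ k (fun j => algebraMap A K (ζ j))
    (fun j => ⟨(G j).map (algebraMap R L),
      (Polynomial.map_ne_zero_iff (IsFractionRing.injective R L)).mpr (hG j), h1 j⟩)
  refine ⟨z, ?_, ?_⟩
  · intro j
    have := hz1 j _ (h1 j)
    rw [Polynomial.eval₂_map, hΩ] at this
    exact this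
  · intro q
    have := hz2 (MvPolynomial.map (algebraMap R L) q)
    rw [MvPolynomial.eval₂_map, MvPolynomial.eval₂_map, hψ, hΩ] at this
    rw [MvPolynomial.aeval_def, ← this]
    have e : MvPolynomial.eval₂ ((algebraMap A K).comp φ)
        (fun j => algebraMap A K (ζ j)) q = algebraMap A K (MvPolynomial.eval₂ φ ζ q) := by
      rw [MvPolynomial.hom_eval₂]
    rw [e]
    exact (map_eq_zero_iff _ (IsFractionRing.injective A K)).symm

theorem lft : H.LftStmt := by
  intro R A _ _ _ _ φ k G ζ hφ hG hζ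
  exact lft_gen R A (FractionRing R) (FractionRing A) (AlgebraicClosure (FractionRing R))
    φ k G ζ hφ hG hζ

end Pool.Agent.LRG.H10
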