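import Pool.Agent.LRG.StmtsD

/-!
# LRG row SHU (short units of a field of small regulator)
-/

set_option autoImplicit false

open NumberField NumberField.Units NumberField.Units.dirichletUnitTheorem Module

namespace Pool.Agent.LRG.H10

theorem shu (hSpn : D.SpnStmt) (hBas : D.BasStmt) (hCnj : D.CnjStmt) (hImr : D.ImrStmt) :
    D.ShuStmt := by
  intro n r hr hn δ hδ
  classical
  have hn0 : (0 : ℝ) < n := by exact_mod_cast (by omega : 0 < n)
  have hδ' : 0 < δ / n := div_pos hδ hn0
  have hc : 0 < D.cSpn r (δ / n) := by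
    unfold D.cSpn
    have : 0 ≤ 4 * (r : ℝ) / (δ / n) + 3 := by positivity
    positivity
  refine ⟨n * D.cSpn r (δ / n), mul_pos hn0 hc, ?_⟩
  intro K _ _ T hT hfin hrank hreg
  subst hrank
  have hcard : Fintype.card {w : InfinitePlace K // w ≠ w₀} = rank K := by
    rw [Fintype.card_congr (equivFinRank K).symm]
    exact Fintype.card_fin _
  have hT0 : 0 < T := lt_of_lt_of_le one_pos hT
  have ht : 0 < T ^ (1 / (rank K : ℝ)) := Real.rpow_pos_of_pos hT0 _
  by_cases h : ∃ x ∈ unitLattice K, x ≠ 0 ∧ ‖x‖ < δ / n * T ^ (1 / (rank K : ℝ))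
  · left
    obtain ⟨x, hx, hx0, hxn⟩ := h
    obtain ⟨a, -, ha⟩ := hx
    have hax : logEmbedding K (Additive.ofMul a.toMul) = x := ha
    refine ⟨fun _ => a.toMul, hImr.2.1 K _ ?_, ?_⟩
    · intro htor
      apply hx0
      rw [← hax]
      exact logEmbedding_eq_zero_iff.mpr htor
    · intro i σ
      have h1 := hCnj K a.toMul (δ / n * T ^ (1 / (rank K : ℝ))) (by positivity) (by
        intro w
        rw [hax]
        have := norm_le_pi_norm x w
        rw [Real.norm_eq_abs] at this
        exact this.trans hxn.le) σ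
      have h2 : (finrank ℚ K : ℝ) * (δ / n * T ^ (1 / (rank K : ℝ)))
          = δ * T ^ (1 / (rank K : ℝ)) := by
        rw [hfin]; field_simp
      rw [h2] at h1
      exact h1
  · right
    push Not at h
    have hs := hSpn _ (unitLattice K) T (δ / n) (by rw [hcard]; exact hr) hT0 hδ' hreg
      (by
        intro x hx hx0
        rw [hcard]
        exact h x hx hx0)
    rw [hcard] at hs
    have hs2 : Submodule.span ℝ {x : logSpace K | x ∈ unitLattice K ∧
        ∀ w, |x w| ≤ D.cSpn (rank K) (δ / n) * T ^ (1 / (rank K : ℝ))} = ⊤ := by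
      rw [← top_le_iff, ← hs]
      apply Submodule.span_mono
      rintro x ⟨hx, hx2⟩
      refine ⟨hx, fun w => ?_⟩
      have := norm_le_pi_norm x w
      rw [Real.norm_eq_abs] at this
      exact this.trans hx2
    obtain ⟨u, hu, hu2⟩ := hBas K _ hs2
    refine ⟨u, hImr.1 K u hu, ?_⟩
    intro i σ
    have h1 := hCnj K (u i) _ (by positivity) (hu2 i) σ
    have h2 : (finrank ℚ K : ℝ) * (D.cSpn (rank K) (δ / n) * T ^ (1 / (rank K : ℝ)))
        = n * D.cSpn (rank K) (δ / n) * T ^ (1 / (rank K : ℝ)) := by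
      rw [hfin]; ring
    rw [h2] at h1
    exact h1

end Pool.Agent.LRG.H10
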